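import Pool.Agent.Y571.UB.Stm

/-!
# Project UB (helper571): lower tail of the Poisson law
-/

set_option autoImplicit false

open Finset Filter Topology
open Pool.Agent.H632R3.RCG

namespace Pool.Agent.Y319.UB

theorem tail : Pool.Agent.Y571.UB.S_TAIL := by
  intro c hc hc1
  have hlog : -Real.log c < 1 / c - 1 := by
    have h := Real.log_lt_sub_one_of_pos (x := 1 / c) (by positivity) (by
      intro h
      rw [div_eq_iff hc.ne', one_mul] at h
      linarith)
    rwa [one_div, Real.log_inv, ← one_div] at h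
  have hlc : 0 < -Real.log c := by
    have := Real.log_neg hc hc1
    linarith
  have hb : 0 < 1 - c + c * Real.log c := by
    have h1 := mul_lt_mul_of_pos_left hlog hc
    have h2 : c * (1 / c - 1) = 1 - c := by
      field_simp
    rw [h2] at h1
    linarith
  refine ⟨1 - c + c * Real.log c, hb, fun t n ht hn => ?_⟩
  have hcn : 0 < c ^ n := pow_pos hc n
  have h1 : ∀ T ∈ range n, pois t T ≤ Real.exp (-t) * (c ^ n)⁻¹ * ((c * t) ^ T / T.factorial) := by
    intro T hT
    have hT' : c ^ n ≤ c ^ T := pow_le_pow_of_le_one hc.le hc1.le (Finset.mem_range.1 hT).le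
    have h2 : 1 ≤ (c ^ n)⁻¹ * c ^ T := by
      rw [inv_mul_eq_div, le_div_iff₀ hcn, one_mul]
      exact hT'
    have h3 : 0 ≤ pois t T := pois_nonneg ht T
    calc pois t T ≤ ((c ^ n)⁻¹ * c ^ T) * pois t T := le_mul_of_one_le_left h3 h2
      _ = Real.exp (-t) * (c ^ n)⁻¹ * ((c * t) ^ T / T.factorial) := by
        unfold pois
        rw [mul_pow]
        ring
  have h4 : ∑ T ∈ range n, (c * t) ^ T / (T.factorial : ℝ) ≤ Real.exp (c * t) :=
    Real.sum_le_exp_of_nonneg (by positivity) n
  have h5 : (c ^ n)⁻¹ ≤ Real.exp (c * t * (-Real.log c)) := by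
    have h6 : c ^ n = Real.exp (n * Real.log c) := by
      rw [Real.exp_nat_mul, Real.exp_log hc]
    rw [h6, ← Real.exp_neg]
    apply Real.exp_le_exp.2
    have := mul_le_mul_of_nonneg_right hn hlc.le
    linarith
  calc ∑ T ∈ range n, pois t T ≤
        ∑ T ∈ range n, Real.exp (-t) * (c ^ n)⁻¹ * ((c * t) ^ T / T.factorial) :=
        Finset.sum_le_sum h1
    _ = Real.exp (-t) * (c ^ n)⁻¹ * ∑ T ∈ range n, (c * t) ^ T / (T.factorial : ℝ) := by
        rw [Finset.mul_sum]
    _ ≤ Real.exp (-t) * Real.exp (c * t * (-Real.log c)) * Real.exp (c * t) := by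
        refine mul_le_mul (mul_le_mul_of_nonneg_left h5 (Real.exp_pos _).le) h4
          (Finset.sum_nonneg fun T _ => by positivity) (by positivity)
    _ = Real.exp (-((1 - c + c * Real.log c) * t)) := by
        rw [← Real.exp_add, ← Real.exp_add]
        congr 1
        ring

end Pool.Agent.Y319.UB

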